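import Pool.Agent.N746.GR.FinalH

set_option autoImplicit false

/-!
# The abc-type inequality with `H = γ / (log γ) ^ ω`, for binary forms

The statement of Q1 is equivalent to the analogous inequality
`max (|x|, |y|) ^ (d - 2) < C H (|F (x, y)|) ^ (1 + ε)` for one binary form `F` of degree `d`, for
instance `F = y (x ^ 3 - 2 y ^ 3)`, and it implies this inequality for all squarefree binary forms of
degree `d ≥ 3`.
-/

namespace Pool.Agent.Results.MP_14cf73_nt.BinaryForms

open Polynomial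

/-- the radical `γ(n)`, the product of the primes dividing `n` -/
def radical (n : ℕ) : ℕ := ∏ p ∈ n.primeFactors, p

/-- `H(n) = γ(n) / (log γ(n)) ^ ω(n)`, where `ω(n)` is the number of primes dividing `n` -/
noncomputable def H (n : ℕ) : ℝ := (radical n : ℝ) / Real.log (radical n : ℝ) ^ n.primeFactors.card

/-- The statement of Q1: for every `ε > 0` there is `C` with `c < C H(abc) ^ (1 + ε)` for all
admissible triples `(a, b, c)`. -/
def Q1 : Prop :=
  ∀ ε : ℝ, 0 < ε → ∃ C : ℝ, ∀ a b c : ℕ, 0 < a → 0 < b → a + b = c → Nat.gcd (Nat.gcd a b) c = 1 →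
    (c : ℝ) < C * H (a * b * c) ^ (1 + ε)

/-- the value at `(x, y)` of the binary form `F = y ^ e * ∑ a_i x ^ i y ^ (deg P - i)` of degree
`deg P + e`, where `P = ∑ a_i X ^ i` -/
def form (P : ℤ[X]) (e : ℕ) (x y : ℤ) : ℤ :=
  y ^ e * ∑ i ∈ Finset.range (P.natDegree + 1), P.coeff i * x ^ i * y ^ (P.natDegree - i)

/-- The inequality for the form `F` of degree `d = deg P + e` given by `P` and `e`: for every `ε > 0`
there is `C` with `max (|x|, |y|) ^ (d - 2) < C H(|F(x, y)|) ^ (1 + ε)` for all coprime integers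
`x, y` with `F(x, y) ≠ 0`. -/
def FormInequality (P : ℤ[X]) (e : ℕ) : Prop :=
  ∀ ε : ℝ, 0 < ε → ∃ C : ℝ, ∀ x y : ℤ, IsCoprime x y → form P e x y ≠ 0 →
    (max |(x : ℝ)| |(y : ℝ)|) ^ (P.natDegree + e - 2) < C * H (form P e x y).natAbs ^ (1 + ε)

theorem q1_iff : Q1 ↔ Pool.Agent.N746.GR.QH := Iff.rfl

theorem form_iff (P : ℤ[X]) (e : ℕ) : FormInequality P e ↔ Pool.Agent.N746.GR.Ineq P e := Iff.rfl

/-- (1) Q1 implies the inequality for every binary form with integral coefficients of degree at least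
`3` without a repeated factor. (2) Conversely Q1 follows from the inequality for any single form
`F ≠ 0` which is divisible by `y` and (over `ℚ`) by `(x - c y) ^ n - m (z y) ^ n`, where `n ≥ 2`,
`c` and `z ≠ 0` are rational, `m` is an integer, and `n ∣ m - 1`, or `n` is a prime which does not
divide `m`; for instance `F = y (x ^ n - m y ^ n)`, or `F = x y (x - y)` (`n = 2`, `m = 1`,
`c = z = 1 / 2`), which is Q1 itself. -/
theorem result :
    (Q1 → ∀ (P : ℤ[X]) (e : ℕ), Squarefree (P.map (Int.castRingHom ℚ)) → e ≤ 1 →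
      3 ≤ P.natDegree + e → FormInequality P e) ∧
    (∀ (n : ℕ) (m : ℤ) (z c : ℚ) (P : ℤ[X]) (e : ℕ), 2 ≤ n →
      ((n : ℤ) ∣ m - 1 ∨ (n.Prime ∧ ¬ (n : ℤ) ∣ m)) → z ≠ 0 → P ≠ 0 → 1 ≤ e →
      (X - C c) ^ n - C ((m : ℚ) * z ^ n) ∣ P.map (Int.castRingHom ℚ) →
      FormInequality P e → Q1) := by
  refine ⟨fun h P e hP he hd => ?_, fun n m z c P e hn hm hz hP he hd h => ?_⟩
  · rw [form_iff]
    exact Pool.Agent.N746.GR.all_forms (q1_iff.1 h) hP he hd
  · rw [q1_iff]
    exact Pool.Agent.N746.GR.one_form hn hm hz c hP he hd ((form_iff P e).1 h)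

end Pool.Agent.Results.MP_14cf73_nt.BinaryForms
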