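import Pool.Agent.N733.TG.K
import Pool.Agent.Results.MP_14cf73_nt.SequenceMembers

/-!
# The inequality `c < C H (abc) ^ M` for triples with a member near the values of multiplicative functions

Let `f` be a positive multiplicative function of at most polynomial growth such that `f p ≤ M p` for the large primes `p`,
with different values at different large primes; for example Euler's function or the sum of the divisors. Let `G` be any
function with steps bounded below by a positive constant and growth at most `v ^ d`, for example `α v ^ d` with `α > 0` and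
`d ≥ 1`. If `2 A d / (3 M) + κ < 1`, then for all `m ≤ N` but `N / (log N) ^ U` EVERY admissible triple one of whose members
`n` is within `f(m) ^ κ` of `G (f m)`, and with `c ≤ n ^ A`, satisfies `c < C H (abc) ^ M`. For `M = 1 + ε` this is the
inequality of the question, for `A = 1` and every order `d < 3 / 2`; here `C > 0` is arbitrary.

The values of `f` are in general taken with very large multiplicities, and so this does not follow from the size of the
exceptional set alone.

Proof. Write `m = k w` where `k` is composed of the primes `≤ z = N ^ (1 / J)`, `J` about `log log N`. For most `m` one has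
`k ≤ N ^ η`, and `w` is a product of at most `J` different primes. So `f(w)` is taken at most `(1 + τ) ^ J` times, `τ` its
number of divisors, which is at most `N ^ o(1)` on average, even in mean square: and the members of the exceptional triples
are at most `N ^ (1 - δ)` (tool of helper733, `N733/TG`). Their number is bounded by the starting theorem
`ExceptionsByHeight` of this problem.
-/

set_option autoImplicit false

namespace Pool.Agent.Results.MP_14cf73_nt.MultiplicativeValues

open Finset
open Pool.Agent.N733.TG (LM Expanding lm_totient lm_sigma keep_good_nat expanding_pow)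
open Pool.Agent.Results.MP_14cf73_nt.SequenceMembers (Good Bad count)

/-- **The inequality with `H` near the values of multiplicative functions.** Let `f` be multiplicative and positive, of at most
polynomial growth, with `f p ≤ M p` at the large primes, and injective there. Let `G` have steps `≥ a > 0` and growth at most
`v ^ d`. Let `A ≥ 1`, `C > 0`, `M > 0`, `κ ≥ 0` and `2 A d / (3 M) + κ < 1`. For every `U` and all large `N`, for all `m ≤ N`
but `N / (log N) ^ U`, EVERY `n ≥ 1` with `|n - G (f m)| ≤ f(m) ^ κ` is `Good A C M`: every admissible triple with the member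
`n` and `c ≤ n ^ A` satisfies `c < C H (abc) ^ M`. Euler's function and the sum of the divisors are examples of such functions
`f`, and `α v ^ d` with `α > 0`, `d ≥ 1` is an example of `G`. -/
theorem result :
    (∀ f : ℕ → ℕ, LM f → ∀ (G : ℕ → ℝ) (d : ℝ), Expanding G d → ∀ A C M κ : ℝ, 1 ≤ A → 0 < C → 0 < M → 0 ≤ κ →
      d * (2 * A / (3 * M)) + κ < 1 → ∀ U : ℕ, ∃ N₀ : ℕ, ∀ N : ℕ, N₀ ≤ N →
      ({m : ℕ | 1 ≤ m ∧ m ≤ N ∧ ¬ ∀ n : ℕ, 1 ≤ n → |(n : ℝ) - G (f m)| ≤ (f m : ℝ) ^ κ →
        Good A C M n}.ncard : ℝ) ≤ N / Real.log N ^ U) ∧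
    (LM Nat.totient ∧ LM (fun m => ∑ d ∈ m.divisors, d)) ∧
    ∀ α d : ℝ, 0 < α → 1 ≤ d → Expanding (fun v => α * (v : ℝ) ^ d) d := by
  classical
  refine ⟨fun f hf G d hG A C M κ hA hC hM hκ h1 U => ?_, ⟨lm_totient, lm_sigma⟩, fun α d hα hd => expanding_pow hα hd⟩
  obtain ⟨N₀, hN₀⟩ := keep_good_nat (fun _ => True) (Good A C M) hf hG (s := 2 * A / (3 * M)) (κ := κ)
    (by positivity) hκ h1 (fun ε hε => by
      obtain ⟨K, hK⟩ := count (A := A) (C := C) (M := M) (lt_of_lt_of_le one_pos hA) hC hM ε hε
      refine ⟨K, fun X hX => le_trans (le_of_eq ?_) (hK X hX)⟩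
      rw [← Set.ncard_coe_finset]
      congr 2
      ext t
      simp only [Set.mem_ofPred_eq, coe_filter, mem_Ioc, Bad]
      constructor
      · rintro ⟨a1, a2, _, a3⟩
        exact ⟨⟨a1, a2⟩, a3⟩
      · rintro ⟨⟨a1, a2⟩, a3⟩
        exact ⟨a1, a2, trivial, a3⟩) U
  refine ⟨N₀, fun N hN => le_trans (le_of_eq ?_) (hN₀ N hN)⟩
  congr 2
  ext m
  simp only [Set.mem_ofPred_eq]
  have : (∀ n : ℕ, 1 ≤ n → |(n : ℝ) - G (f m)| ≤ (f m : ℝ) ^ κ → Good A C M n) ↔
      ∀ n : ℕ, 1 ≤ n → True → |(n : ℝ) - G (f m)| ≤ (f m : ℝ) ^ κ → Good A C M n :=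
    ⟨fun h n hn _ => h n hn, fun h n hn => h n hn trivial⟩
  rw [this]

end Pool.Agent.Results.MP_14cf73_nt.MultiplicativeValues
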