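import Pool.Agent.N9.AB.Pair

/-!
# Admissible triples with a small `H (abc)`, by the pigeonhole principle

`H (n) = γ (n) / (log γ (n)) ^ ω (n)`. For every `K < 2 + 4 log (3/2) = 3.6218…` there are
infinitely many admissible triples with `c > H exp (K log H / log log H)`,
`H = max (H (abc), e ^ e)`. Among the products of half of the odd primes `≤ y` many are congruent
modulo a power `2 ^ m` of size nearly `2 ^ π(y)`; two of them with small symmetric difference give
`b` and `c`.
-/

set_option autoImplicit false

namespace Pool.Agent.Results.MP_14cf73_nt.PigeonholeConstant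

open Filter Topology

/-- `γ(n)`, the product of the primes dividing `n` -/
def radical (n : ℕ) : ℕ := ∏ p ∈ n.primeFactors, p

/-- `ω(n)`, the number of primes dividing `n` -/
def omega (n : ℕ) : ℕ := n.primeFactors.card

/-- `H(n) = γ(n) / (log γ(n)) ^ ω(n)` -/
noncomputable def H (n : ℕ) : ℝ := (radical n : ℝ) / Real.log (radical n : ℝ) ^ omega n

/-- `max (H(n), e ^ e)` -/
noncomputable def H' (n : ℕ) : ℝ := max (H n) (Real.exp (Real.exp 1))

/-- **A larger constant by the pigeonhole principle.** For every `K < 2 + 4 log (3/2) = 3.6218…`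
and every `X` there is an admissible triple with `c > X` and `c > H exp (K log H / log log H)`
where `H = max (H(abc), e ^ e)`. -/
theorem result (K : ℝ) (hK : K < 2 + 4 * Real.log (3 / 2)) (X : ℝ) :
    ∃ a b c : ℕ, 0 < a ∧ 0 < b ∧ a + b = c ∧ Nat.Coprime a b ∧ X < c ∧
      H' (a * b * c) * Real.exp (K * Real.log (H' (a * b * c)) /
        Real.log (Real.log (H' (a * b * c)))) < c := by
  set K₀ : ℝ := 2 + 4 * Real.log (3 / 2) with hK₀
  set K' : ℝ := max K 0 with hK'
  have hK'0 : 0 ≤ K' := le_max_right _ _
  have hKK' : K ≤ K' := le_max_left _ _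
  have hl32 : 0 < Real.log (3 / 2 : ℝ) := Real.log_pos (by norm_num)
  have hl32' : Real.log (3 / 2 : ℝ) ≤ 1 / 2 := by
    have := Real.log_le_sub_one_of_pos (show (0 : ℝ) < 3 / 2 by norm_num)
    linarith
  have hK₀4 : K₀ ≤ 4 := by linarith
  have hK'1 : K' < K₀ := max_lt hK (by linarith)
  set δ : ℝ := min (1 / 40) ((K₀ - K') / 80) with hδ
  have hδ0 : 0 < δ := lt_min (by norm_num) (by linarith)
  have hδ1 : δ ≤ 1 / 40 := min_le_left _ _
  have hδK : 80 * δ ≤ K₀ - K' := by
    have : δ ≤ (K₀ - K') / 80 := min_le_right _ _
    linarith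
  have hgap : K' < (K₀ - 36 * δ) * (1 - δ) := by
    nlinarith [sq_nonneg δ]
  set δ₁ : ℝ := 3 * (1 - Real.exp (-δ)) / 80 with hδ₁
  have hδ₁0 : 0 < δ₁ := by
    have : Real.exp (-δ) < 1 := Real.exp_lt_one_iff.mpr (by linarith)
    rw [hδ₁]
    linarith
  set N : ℕ := ⌈2 + 2 / δ⌉₊ with hN
  have hN1 : 2 + 2 / δ ≤ (N : ℝ) := Nat.le_ceil _
  have hN2 : 1 ≤ N := by
    have h1 : 0 < 2 / δ := by positivity
    have h2 : (1 : ℝ) ≤ N := by linarith
    exact_mod_cast h2
  have he0 : 0 < Real.exp 1 := Real.exp_pos 1
  have he1 : (1 : ℝ) < Real.exp 1 := Real.one_lt_exp_iff.mpr one_pos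
  set B : ℝ := Real.exp 1 + K' * Real.exp 1 + |Real.log (max X 1)| with hB
  have hKe : 0 ≤ K' * Real.exp 1 := by positivity
  obtain ⟨y, hy3, k, m, f1, f2, f3, f4, f5, f6, f7, f8, f9, f10, f11, f12⟩ :=
    (Pool.Agent.N9.AB.eventual hN2 hδ0 hδ1 hδ₁0 B).exists
  obtain ⟨u, hu1, a, b, c, ha, hb, habc, hcop, h2m, hlogc, hg1, hest⟩ :=
    Pool.Agent.N9.AB.pair hδ0 hδ1 (by rw [hδ₁]; linarith) hN1 hy3 f1 f2 f3 f4 f5 f6 f7 f8 f9 f10
  have hyR : (3 : ℝ) ≤ y := by exact_mod_cast hy3
  have hY : 0 < Real.log (y : ℝ) := Real.log_pos (by linarith)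
  have huR : (1 : ℝ) ≤ u := by exact_mod_cast hu1
  have hc0 : (0 : ℝ) < c := by
    have : 0 < c := by omega
    exact_mod_cast this
  set L : ℝ := Real.log (c : ℝ) with hL
  have hmL : (m : ℝ) * Real.log 2 ≤ L := by
    rw [hL, ← Real.log_pow]
    exact Real.log_le_log (by positivity) (by exact_mod_cast h2m)
  have hLB : B < L := by linarith
  have hcL : (c : ℝ) = Real.exp L := by rw [hL, Real.exp_log hc0]
  refine ⟨a, b, c, ha, hb, habc, hcop, ?_, ?_⟩
  · have hX1 : 0 < max X 1 := lt_of_lt_of_le one_pos (le_max_right _ _)
    have h3 : Real.log (max X 1) < L := by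
      refine lt_of_le_of_lt (le_abs_self _) ?_
      have : |Real.log (max X 1)| ≤ B := by
        rw [hB]
        linarith
      linarith
    calc X ≤ max X 1 := le_max_left _ _
      _ = Real.exp (Real.log (max X 1)) := (Real.exp_log hX1).symm
      _ < Real.exp L := Real.exp_lt_exp.mpr h3
      _ = (c : ℝ) := hcL.symm
  · have hE : Real.log (Real.exp (Real.exp 1)) = Real.exp 1 := Real.log_exp _
    set n : ℕ := a * b * c with hn
    have hr0 : (0 : ℝ) < (radical n : ℝ) := by
      have : 0 < radical n := Finset.prod_pos fun p hp => (Nat.prime_of_mem_primeFactors hp).pos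
      exact_mod_cast this
    change 1 ≤ Real.log (radical n : ℝ) at hg1
    change (K₀ - 36 * δ) * u ≤ L - (Real.log (radical n : ℝ) -
      (omega n : ℝ) * Real.log (Real.log (radical n : ℝ))) at hest
    have hlogH : Real.log (H n) = Real.log (radical n : ℝ) -
        (omega n : ℝ) * Real.log (Real.log (radical n : ℝ)) := by
      have hg0 : 0 < Real.log (radical n : ℝ) := by linarith
      rw [H, Real.log_div hr0.ne' (by positivity), Real.log_pow]
    rw [← hlogH] at hest
    set h : ℝ := H' n with hh
    have hhE : Real.exp (Real.exp 1) ≤ h := le_max_right _ _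
    have hh0 : 0 < h := lt_of_lt_of_le (Real.exp_pos _) hhE
    have hlh : Real.exp 1 ≤ Real.log h := by
      rw [← hE]
      exact Real.log_le_log (Real.exp_pos _) hhE
    have hlh0 : 0 < Real.log h := by linarith
    have hllh : 1 ≤ Real.log (Real.log h) := by
      have := Real.log_le_log he0 hlh
      rwa [Real.log_exp] at this
    have hmain : Real.log h + K' * Real.log h / Real.log (Real.log h) < L := by
      rcases le_total (H n) (Real.exp (Real.exp 1)) with hcase | hcase
      · have h3 : h = Real.exp (Real.exp 1) := max_eq_right hcase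
        rw [h3, hE, Real.log_exp, div_one]
        refine lt_of_le_of_lt ?_ hLB
        rw [hB]
        have : 0 ≤ |Real.log (max X 1)| := abs_nonneg _
        linarith
      · have h3 : h = H n := max_eq_left hcase
        rw [← h3] at hest
        set M : ℝ := u * Real.log y with hM
        have hc36 : 0 < K₀ - 36 * δ := by
          by_contra hcon
          rw [not_lt] at hcon
          have : (K₀ - 36 * δ) * (1 - δ) ≤ 0 := mul_nonpos_of_nonpos_of_nonneg hcon (by linarith)
          linarith
        have hlhM : Real.log h ≤ M := by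
          have h4 : 0 < (K₀ - 36 * δ) * u := by positivity
          linarith
        have hM0 : 0 < M := by linarith
        -- monotonicity of `x / log x`
        have hlogM : 0 < Real.log M := Real.log_pos (by linarith)
        have h5 : Real.log h / Real.log (Real.log h) ≤ M / Real.log M := by
          have h6 := Real.log_div_self_antitoneOn (a := Real.log h) (b := M) hlh
            (hlh.trans hlhM) hlhM
          simp only at h6
          rw [div_le_div_iff₀ (by linarith) hlogM]
          rw [div_le_div_iff₀ hM0 hlh0] at h6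
          linarith
        have h6 : M / Real.log M ≤ u / (1 - δ) := by
          have h7 : (1 - δ) * Real.log y ≤ Real.log M := by
            have hm0 : 0 < (m : ℝ) * Real.log 2 := by
              have : 0 ≤ |Real.log (max X 1)| := abs_nonneg _
              linarith
            exact f11.trans (Real.log_le_log hm0 (hmL.trans hlogc))
          rw [div_le_div_iff₀ hlogM (by linarith)]
          calc M * (1 - δ) = u * ((1 - δ) * Real.log y) := by
                rw [hM]
                ring
            _ ≤ u * Real.log M := by gcongr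
        have h7 : K' * (u / (1 - δ)) < (K₀ - 36 * δ) * u := by
          have h8 : 0 < 1 - δ := by linarith
          have e1 : K' * (u / (1 - δ)) = K' * u / (1 - δ) := by ring
          rw [e1, div_lt_iff₀ h8]
          calc K' * u < (K₀ - 36 * δ) * (1 - δ) * u := by
                apply mul_lt_mul_of_pos_right hgap
                linarith
            _ = (K₀ - 36 * δ) * u * (1 - δ) := by ring
        have h8 := mul_le_mul_of_nonneg_left (h5.trans h6) hK'0
        have h9 : K' * Real.log h / Real.log (Real.log h) =
            K' * (Real.log h / Real.log (Real.log h)) := by ring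
        rw [h9]
        linarith
    have h10 : K * Real.log h / Real.log (Real.log h) ≤
        K' * Real.log h / Real.log (Real.log h) := by
      gcongr
    calc h * Real.exp (K * Real.log h / Real.log (Real.log h))
        = Real.exp (Real.log h + K * Real.log h / Real.log (Real.log h)) := by
          rw [Real.exp_add, Real.exp_log hh0]
      _ < Real.exp L := by
          apply Real.exp_lt_exp.mpr
          linarith
      _ = (c : ℝ) := hcL.symm

end Pool.Agent.Results.MP_14cf73_nt.PigeonholeConstant
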