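import Mathlib
import Pool.Agent.N757.OH.HFun

/-!
# The inequality `c < C H (abc) ^ (1 + ε)` is equivalent to its consequence for `H (x ^ p - y ^ q)`

`H (n) = γ (n) / (log γ (n)) ^ ω (n)`. If `c < C H (abc) ^ (1 + ε)` for all admissible triples, then, for
all coprime integers `x`, `y` with `x ^ p ≠ y ^ q`,

  `H (x ^ p - y ^ q) ≥ κ M ^ (1 - 1/p - 1/q - ε)`, `M = max (|x| ^ p, |y| ^ q)`,

an inequality in which only one of the three members of the triple contributes. We prove the
converse for `(p, q) = (k, 2)` for every `k ≥ 3`, for `(3, 3)` and `(4, 4)`, and for all signatures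
obtained from these by three rules, for instance for

  `(k m, 2 m)` (`k ≥ 3`), `((k + 1) m, 2 k m)` (`k ≥ 2`), `((k + 2) m, 2 k m)` (`k ≥ 3`).

It is enough to know the inequality for nearly equal powers: for `N ∣ x ^ p - y ^ q` and
`|x ^ p - y ^ q| ≤ δ M`, where `N` and `δ > 0` are fixed. In the same way Q1 follows, for every `n ≥ 2`,
from the inequality `H (u v) ≥ κ max (|u|, |v|) ^ (1 - 1/n - ε)` for the coprime `u`, `v` whose sum is
an `n`-th power.

The function `H` is not multiplicative, and it is very far from the radical on integers with many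
prime factors; what is used is that `H (m) ≤ 3 H (n) w` if every prime dividing `n` divides `m` and
every prime dividing `m` divides `n w`. So the maps between the triples must not lose a prime: every
prime dividing `a b c` has to divide `x ^ p - y ^ q` as well. This is arranged for all the maps used (maps of
the projective line which are ramified only over the cusp and the points of orders `p`, `q`, with
three rational points over the cusp).
-/

set_option autoImplicit false

namespace Pool.Agent.Results.MP_14cf73_nt.RadicalsOfDifferencesH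

open Pool.Agent.N757.OH

/-- `(a, b, c)` is an admissible triple -/
def Admissible (a b c : ℕ) : Prop :=
  0 < a ∧ 0 < b ∧ 0 < c ∧ a + b = c ∧ Nat.gcd (Nat.gcd a b) c = 1

/-- the statement of Q1 -/
def Q1 : Prop :=
  ∀ ε : ℝ, 0 < ε → ∃ C : ℝ, ∀ a b c : ℕ, Admissible a b c → (c : ℝ) < C * H (a * b * c) ^ (1 + ε)

theorem q1_iff : Q1 ↔ ABC H := by
  constructor
  · intro h ε hε
    obtain ⟨C, hC⟩ := h ε hε
    refine ⟨C, fun a b c ha hb hab habc => (hC a b c ⟨ha, hb, by omega, habc, ?_⟩).le⟩
    rw [hab, Nat.gcd_one_left]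
  · intro h ε hε
    obtain ⟨κ, hκ⟩ := h ε hε
    refine ⟨κ + 1, fun a b c habc => ?_⟩
    obtain ⟨ha, hb, hc, hsum, hgcd⟩ := habc
    have hab : Nat.Coprime a b := by
      have h1 : Nat.gcd a b ∣ c := by
        rw [← hsum]
        exact dvd_add (Nat.gcd_dvd_left a b) (Nat.gcd_dvd_right a b)
      rwa [Nat.gcd_eq_left h1] at hgcd
    have h1 := hκ a b c ha hb hab hsum
    have h2 : 0 < H (a * b * c) ^ (1 + ε) := Real.rpow_pos_of_pos (H_pos _) _
    linarith

/-- **Q1 and the value of `H` at `x ^ p - y ^ q`.** Let `N ≥ 1` and `δ > 0`.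

* For every signature `(p, q)` of the set `Signature` the statement of Q1 holds if and only if
  for every `ε > 0` there is `κ > 0` with `H (x ^ p - y ^ q) ≥ κ M ^ (1 - 1/p - 1/q - ε)`,
  `M = max (|x| ^ p, |y| ^ q)`, for all coprime integers `x`, `y` with `x ^ p ≠ y ^ q`,
  `N ∣ x ^ p - y ^ q` and `|x ^ p - y ^ q| ≤ δ M`.
* For every `n ≥ 2` the statement of Q1 holds if and only if for every `ε > 0` there is `κ > 0` with
  `H (u v) ≥ κ max (|u|, |v|) ^ (1 - 1/n - ε)` for all coprime nonzero integers `u`, `v` whose sum is an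
  `n`-th power, with `N ∣ u` and `|u| ≤ δ |v|`.
* `Signature` contains `(k m, 2 m)` for `k ≥ 3`, `(3 m, 3 m)`, `(4 m, 4 m)`, `((k + 1) m, 2 k m)` for
  `k ≥ 2` and `((k + 2) m, 2 k m)` for `k ≥ 3`, where `m ≥ 1`. -/
theorem result (N : ℕ) (hN : 1 ≤ N) (δ : ℝ) (hδ : 0 < δ) :
    (∀ p q : ℕ, Signature p q → (Q1 ↔ OneCusp H p q N δ)) ∧
      (∀ n : ℕ, 2 ≤ n → (Q1 ↔ TwoCusps H n N δ)) ∧
      ∀ m : ℕ, 1 ≤ m → (∀ k : ℕ, 3 ≤ k → Signature (k * m) (2 * m)) ∧
        Signature (3 * m) (3 * m) ∧ Signature (4 * m) (4 * m) ∧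
        (∀ k : ℕ, 2 ≤ k → Signature ((k + 1) * m) (2 * k * m)) ∧
        ∀ k : ℕ, 3 ≤ k → Signature ((k + 2) * m) (2 * k * m) := by
  rw [q1_iff]
  refine ⟨fun p q hpq => ⟨fun h => ?_, converse radLike_H hpq N hN δ hδ⟩, fun n hn =>
    ⟨fun h => abc_twoCusps radLike_H h n N (by omega) δ, twoCusps_abc radLike_H n hn N hN δ hδ⟩,
    fun m hm => ?_⟩
  · obtain ⟨h1, h2, -⟩ := sig_pos hpq
    exact abc_oneCusp radLike_H h p q N (by omega) (by omega) δ
  · refine ⟨fun k hk => (Signature.square k hk).multiple m hm, Signature.cubes.multiple m hm,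
      Signature.fourth.multiple m hm, fun k hk => ?_, fun k hk => ?_⟩
    · have h1 := Signature.mean (p := 2 * k) (q := 2) 1 k le_rfl (by omega) (by ring)
        (Signature.square (2 * k) (by omega))
      rw [mul_one, add_comm] at h1
      exact h1.multiple m hm
    · have h1 := Signature.mean (p := k) (q := 2) 2 k (by omega) (by omega) (by ring)
        (Signature.square k hk)
      rw [add_comm, mul_comm k 2] at h1
      exact h1.multiple m hm

end Pool.Agent.Results.MP_14cf73_nt.RadicalsOfDifferencesH
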